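import Mathlib
import Pool.Agent.Helper97.TI.L_Final

/-!
# Backward invariant algebraic sets are totally invariant (own statement beside S00051)
-/

set_option autoImplicit false

open MvPolynomial

namespace Pool.Agent.Helper92.OWN

variable {κ : ℕ}

/-- The polynomial map given by `F`. -/
noncomputable def mp (F : Fin κ → TI.RR κ) (v : Fin κ → ℂ) : Fin κ → ℂ := fun i => eval v (F i)

lemma eval_phi (F : Fin κ → TI.RR κ) (v : Fin κ → ℂ) (p : TI.RR κ) :
    eval v (TI.phi F p) = eval (mp F v) p := by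
  have h : (eval v).comp (TI.phi F : TI.RR κ →+* TI.RR κ) = eval (mp F v) := by
    apply MvPolynomial.ringHom_ext
    · intro c
      simp
    · intro i
      simp [mp]
  exact congrArg (fun g : TI.RR κ →+* ℂ => g p) h

lemma eval_phi_pow (F : Fin κ → TI.RR κ) (p : TI.RR κ) (n : ℕ) : ∀ v : Fin κ → ℂ,
    eval v (((TI.phi F) ^ n : TI.RR κ →ₐ[ℂ] TI.RR κ) p) = eval ((mp F)^[n] v) p := by
  induction n with
  | zero => intro v; rfl
  | succ n ih =>
    intro v
    rw [pow_succ', AlgHom.mul_apply, eval_phi, ih, Function.iterate_succ_apply]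

lemma mp_surj {d : ℕ} {F : Fin κ → TI.RR κ} (hF : TI.NonDeg d F) :
    Function.Surjective (mp F) := by
  intro w
  obtain ⟨hinj, hfin⟩ := TI.phi_inj_int hF (TI.free_over_phi hF)
  have hint := hfin.to_isIntegral
  have hmax : (vanishingIdeal ℂ {w} : Ideal (TI.RR κ)).IsMaximal :=
    isMaximal_iff_eq_vanishingIdeal_singleton.2 ⟨w, rfl⟩
  obtain ⟨Q, hQ, hQc⟩ : ∃ Q : Ideal (TI.RR κ), Q.IsMaximal ∧
      Q.comap (TI.phi F).toRingHom = vanishingIdeal ℂ {w} := by
    let : Algebra (TI.RR κ) (TI.RR κ) := (TI.phi F).toRingHom.toAlgebra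
    have : Algebra.IsIntegral (TI.RR κ) (TI.RR κ) := ⟨hint⟩
    refine Ideal.exists_ideal_over_maximal_of_isIntegral (R := TI.RR κ) (S := TI.RR κ)
      (vanishingIdeal ℂ {w}) ?_
    intro p hp
    have h1 : TI.phi F p = 0 := hp
    have h2 : p = 0 := hinj (by rw [h1, map_zero])
    rw [h2]
    exact Ideal.zero_mem _
  obtain ⟨v, hv⟩ := isMaximal_iff_eq_vanishingIdeal_singleton.1 hQ
  refine ⟨v, ?_⟩
  funext i
  have h1 : (X i - C (w i) : TI.RR κ) ∈ vanishingIdeal ℂ {w} := by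
    rw [mem_vanishingIdeal_singleton_iff]
    simp
  rw [← hQc, Ideal.mem_comap, hv, mem_vanishingIdeal_singleton_iff] at h1
  have h2 : eval v (TI.phi F (X i - C (w i))) = 0 := by
    simpa [aeval_eq_eval] using h1
  rw [eval_phi] at h2
  simpa [sub_eq_zero] using h2

/-- Backward invariance implies total invariance. -/
lemma back {d : ℕ} {F : Fin κ → TI.RR κ} (hF : TI.NonDeg d F) (S : Set (TI.RR κ))
    (h : ∀ v : Fin κ → ℂ, (∀ p ∈ S, eval (mp F v) p = 0) → ∀ p ∈ S, eval v p = 0) :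
    ∀ v : Fin κ → ℂ, (∀ p ∈ S, eval v p = 0) → ∀ p ∈ S, eval (mp F v) p = 0 := by
  -- the chain of the vanishing ideals of the preimages
  let Z : ℕ → Set (Fin κ → ℂ) := fun n => {v | ∀ p ∈ S, eval ((mp F)^[n] v) p = 0}
  have hZ : ∀ n, Z (n + 1) ⊆ Z n := by
    intro n v hv
    have hv' : ∀ p ∈ S, eval ((mp F)^[n + 1] v) p = 0 := hv
    change ∀ p ∈ S, eval ((mp F)^[n] v) p = 0
    apply h
    intro p hp
    have := hv' p hp
    rwa [Function.iterate_succ_apply'] at this
  have hanti : Antitone Z := antitone_nat_of_succ_le hZ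
  let J : ℕ →o Ideal (TI.RR κ) :=
    ⟨fun n => vanishingIdeal ℂ (Z n), fun m n hmn => vanishingIdeal_anti_mono (hanti hmn)⟩
  obtain ⟨n, hn⟩ := monotone_stabilizes_iff_noetherian.2
    (inferInstance : IsNoetherian (TI.RR κ) (TI.RR κ)) J
  have hJ : vanishingIdeal ℂ (Z n) = vanishingIdeal ℂ (Z (n + 1)) := hn (n + 1) (Nat.le_succ n)
  have hZn : Z n ⊆ Z (n + 1) := by
    intro v hv
    change ∀ p ∈ S, eval ((mp F)^[n + 1] v) p = 0
    intro p hp
    have h1 : ((TI.phi F) ^ (n + 1) : TI.RR κ →ₐ[ℂ] TI.RR κ) p ∈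
        vanishingIdeal ℂ (Z (n + 1)) := by
      rw [mem_vanishingIdeal_iff]
      intro x hx
      have h2 := hx p hp
      rw [← eval_phi_pow] at h2
      simpa [aeval_eq_eval] using h2
    rw [← hJ, mem_vanishingIdeal_iff] at h1
    have h3 := h1 v hv
    rw [← eval_phi_pow]
    simpa [aeval_eq_eval] using h3
  intro w hw
  obtain ⟨v, rfl⟩ := ((mp_surj hF).iterate n) w
  have h1 : v ∈ Z (n + 1) := hZn hw
  intro p hp
  have h2 := h1 p hp
  rwa [Function.iterate_succ_apply'] at h2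

end Pool.Agent.Helper92.OWN
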